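import Pool.Agent.helper48.SO.Spec

/-!
# FIB: one coset of an elementary normal subgroup
-/

set_option autoImplicit false

namespace SOL

open Finset

theorem FIB_pf {m o p : ℕ} (hp : p.Prime) (hm : m ≠ 0) (ho : o ≠ 0) (h1 : m ∣ o)
    (h2 : o ∣ m * p) : (p ∣ o → o.primeFactors = insert p m.primeFactors) ∧
      (¬ p ∣ o → o.primeFactors = m.primeFactors) := by
  have e1 : m.primeFactors ⊆ o.primeFactors := Nat.primeFactors_mono h1 ho
  have e2 : o.primeFactors ⊆ insert p m.primeFactors := by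
    have h3 := Nat.primeFactors_mono h2 (mul_ne_zero hm hp.ne_zero)
    rw [Nat.primeFactors_mul hm hp.ne_zero, hp.primeFactors] at h3
    intro ℓ hℓ
    have h4 := h3 hℓ
    rw [mem_union, mem_singleton] at h4
    rw [mem_insert]
    tauto
  constructor
  · intro h
    apply Subset.antisymm e2
    rw [insert_subset_iff]
    exact ⟨Nat.mem_primeFactors.2 ⟨hp, h, ho⟩, e1⟩
  · intro h
    apply Subset.antisymm _ e1
    intro ℓ hℓ
    have h3 := e2 hℓ
    rw [mem_insert] at h3
    rcases h3 with rfl | h3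
    · exact absurd (Nat.dvd_of_mem_primeFactors hℓ) h
    · exact h3

theorem FIB : FIB_stmt := by
  classical
  intro G _ _ N _ p t x hp hN ht
  obtain ⟨F, hFdef⟩ : ∃ F : Finset G, F = univ.filter
    (fun g : G => (QuotientGroup.mk g : G ⧸ N) = x) := ⟨_, rfl⟩
  obtain ⟨m, hm⟩ : ∃ m : ℕ, m = orderOf x := ⟨_, rfl⟩
  obtain ⟨q, hq⟩ : ∃ q : ℕ, q = Nat.card N := ⟨_, rfl⟩
  have hm0 : m ≠ 0 := by
    rw [hm]
    exact (orderOf_pos x).ne'
  have hmem : ∀ g, g ∈ F ↔ (QuotientGroup.mk g : G ⧸ N) = x := by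
    intro g
    rw [hFdef]
    simp
  have hpowN : ∀ g ∈ F, g ^ m ∈ N := by
    intro g hg
    rw [hmem] at hg
    rw [← QuotientGroup.eq_one_iff, QuotientGroup.mk_pow, hg, hm]
    exact pow_orderOf_eq_one x
  have hd1 : ∀ g ∈ F, m ∣ orderOf g := by
    intro g hg
    rw [hmem] at hg
    rw [hm, ← hg]
    exact orderOf_map_dvd (QuotientGroup.mk' N) g
  have hd2 : ∀ g ∈ F, orderOf g ∣ m * p := by
    intro g hg
    apply orderOf_dvd_of_pow_eq_one
    rw [pow_mul]
    exact hN _ (hpowN g hg)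
  have ho : ∀ g : G, orderOf g ≠ 0 := fun g => (orderOf_pos g).ne'
  obtain ⟨g1, hg1⟩ := QuotientGroup.mk_surjective x
  have hcardF : F.card = q := by
    have h1 : F = (univ : Finset N).image (fun a : N => g1 * (a : G)) := by
      ext g
      rw [hmem, mem_image]
      constructor
      · intro h
        have h2 : g1⁻¹ * g ∈ N := by
          rw [← QuotientGroup.eq, hg1, h]
        exact ⟨⟨g1⁻¹ * g, h2⟩, mem_univ _, by simp⟩
      · rintro ⟨a, -, rfl⟩
        rw [← hg1, eq_comm, QuotientGroup.eq]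
        simp
    rw [h1, card_image_of_injective, card_univ, hq, Nat.card_eq_fintype_card]
    intro a b hab
    exact Subtype.ext (mul_left_cancel hab)
  have hq1 : 1 ≤ q := by
    rw [← hcardF]
    exact card_pos.2 ⟨g1, (hmem g1).2 hg1⟩
  have hq1' : (1 : ℝ) ≤ q := by exact_mod_cast hq1
  have htp := ht p
  have hD : 0 < ((q : ℝ) - 1) * t p + 1 := by
    have : 0 ≤ ((q : ℝ) - 1) * t p := mul_nonneg (by linarith) (by linarith)
    linarith
  have hwx : wt (nw t p q) x = ∏ ℓ ∈ m.primeFactors, nw t p q ℓ := by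
    unfold wt
    rw [hm]
  rw [← hq]
  by_cases hpm : p ∣ m
  · have hpmem : p ∈ m.primeFactors := Nat.mem_primeFactors.2 ⟨hp, hpm, hm0⟩
    have h1 : ∀ g ∈ F, wt t g = ∏ ℓ ∈ m.primeFactors, t ℓ := by
      intro g hg
      unfold wt
      rw [(FIB_pf hp hm0 (ho g) (hd1 g hg) (hd2 g hg)).1 (hpm.trans (hd1 g hg)),
        insert_eq_of_mem hpmem]
    have h2 : ∑ g ∈ F, wt t g = ((q - 1) * t p + 1) * wt (nw t p q) x := by
      rw [sum_congr rfl h1, sum_const, nsmul_eq_mul, hcardF, hwx,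
        ← mul_prod_erase _ _ hpmem, ← mul_prod_erase _ (nw t p q) hpmem]
      have h3 : ∏ ℓ ∈ m.primeFactors.erase p, nw t p q ℓ =
          ∏ ℓ ∈ m.primeFactors.erase p, t ℓ := by
        refine prod_congr rfl fun ℓ hℓ => ?_
        unfold nw
        rw [Function.update_of_ne (mem_erase.1 hℓ).1]
      rw [h3]
      have h4 : nw t p q p = q * t p / ((q - 1) * t p + 1) := by
        unfold nw
        rw [Function.update_self]
      rw [h4]
      have h5 : ((q : ℝ) - 1) * t p + 1 ≠ 0 := hD.ne'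
      have h6 : (((q : ℝ) - 1) * t p + 1) * (q * t p / ((q - 1) * t p + 1)) = q * t p :=
        mul_div_cancel₀ _ h5
      rw [← mul_assoc, ← mul_assoc, h6]
    rw [hFdef] at h2
    exact ⟨h2.le, fun _ => h2⟩
  · have hpmem : p ∉ m.primeFactors := fun h => hpm (Nat.dvd_of_mem_primeFactors h)
    have hwx' : wt (nw t p q) x = ∏ ℓ ∈ m.primeFactors, t ℓ := by
      rw [hwx]
      refine prod_congr rfl fun ℓ hℓ => ?_
      unfold nw
      rw [Function.update_of_ne]
      rintro rfl
      exact hpmem hℓ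
    obtain ⟨P, hP⟩ : ∃ P : ℝ, P = ∏ ℓ ∈ m.primeFactors, t ℓ := ⟨_, rfl⟩
    have hP0 : 0 ≤ P := by
      rw [hP]
      exact prod_nonneg fun ℓ _ => by linarith [ht ℓ]
    have h1 : ∀ g ∈ F, p ∣ orderOf g → wt t g = t p * P := by
      intro g hg h
      unfold wt
      rw [(FIB_pf hp hm0 (ho g) (hd1 g hg) (hd2 g hg)).1 h, prod_insert hpmem, hP]
    have h2 : ∀ g ∈ F, ¬ p ∣ orderOf g → wt t g = P := by
      intro g hg h
      unfold wt
      rw [(FIB_pf hp hm0 (ho g) (hd1 g hg) (hd2 g hg)).2 h, hP]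
    have h3 : ∀ g ∈ F, wt t g ≤ t p * P := by
      intro g hg
      by_cases h : p ∣ orderOf g
      · exact (h1 g hg h).le
      · rw [h2 g hg h]
        exact le_mul_of_one_le_left hP0 htp
    have hcop : Nat.Coprime p m := (Nat.Prime.coprime_iff_not_dvd hp).2 hpm
    obtain ⟨g0, hg0⟩ : ∃ g0 : G, g0 = g1 ^ (p ^ Nat.totient m) := ⟨_, rfl⟩
    have hg1F : g1 ∈ F := (hmem g1).2 hg1
    have hg0F : g0 ∈ F := by
      rw [hmem, hg0, QuotientGroup.mk_pow, hg1]
      have h4 := Nat.ModEq.pow_totient hcop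
      have h5 : x ^ (p ^ Nat.totient m) = x ^ 1 := by
        rw [pow_eq_pow_iff_modEq, ← hm]
        exact h4
      rw [h5, pow_one]
    have hg0m : g0 ^ m = 1 := by
      have htot : 0 < Nat.totient m := Nat.totient_pos.2 (Nat.pos_of_ne_zero hm0)
      obtain ⟨s, hs⟩ : ∃ s, Nat.totient m = s + 1 := ⟨Nat.totient m - 1, by omega⟩
      rw [hg0, ← pow_mul, mul_comm, pow_mul, hs, pow_succ', pow_mul, hN _ (hpowN g1 hg1F), one_pow]
    have hg0p : ¬ p ∣ orderOf g0 := by
      intro h
      exact hpm (h.trans (orderOf_dvd_of_pow_eq_one hg0m))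
    have hsum : ∑ g ∈ F, wt t g = P + ∑ g ∈ F.erase g0, wt t g := by
      rw [← add_sum_erase F _ hg0F, h2 g0 hg0F hg0p]
    have hce : ((F.erase g0).card : ℝ) = q - 1 := by
      rw [card_erase_of_mem hg0F, hcardF, Nat.cast_sub hq1, Nat.cast_one]
    rw [hwx', ← hP, ← hFdef, hsum]
    constructor
    · have h4 : ∑ g ∈ F.erase g0, wt t g ≤ (F.erase g0).card • (t p * P) :=
        sum_le_card_nsmul _ _ _ fun g hg => h3 g (mem_of_mem_erase hg)
      rw [nsmul_eq_mul, hce] at h4
      linarith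
    · intro hcomm
      have h4 : ∀ g ∈ F.erase g0, wt t g = t p * P := by
        intro g hg
        rw [mem_erase] at hg
        apply h1 g hg.2
        by_contra h5
        apply hg.1
        have h6 : g0⁻¹ * g ∈ N := by
          rw [← QuotientGroup.eq, (hmem g0).1 hg0F, (hmem g).1 hg.2]
        have h7 : (g0⁻¹ * g) ^ p = 1 := hN _ h6
        have h8 : orderOf g ∣ m := by
          have h9 : Nat.Coprime (orderOf g) p :=
            ((Nat.Prime.coprime_iff_not_dvd hp).2 h5).symm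
          exact h9.dvd_of_dvd_mul_right (hd2 g hg.2)
        have h10 : g ^ m = 1 := orderOf_dvd_iff_pow_eq_one.1 h8
        have h11 : (g0⁻¹ * g) ^ m = 1 := by
          have hc : Commute g0⁻¹ g := hcomm _ _
          rw [hc.mul_pow, inv_pow, hg0m, h10, inv_one, one_mul]
        have h12 : g0⁻¹ * g = 1 := by
          have h13 := orderOf_dvd_of_pow_eq_one h7
          have h14 := orderOf_dvd_of_pow_eq_one h11
          have h15 := Nat.dvd_gcd h13 h14
          rw [Nat.Coprime] at hcop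
          rw [hcop, Nat.dvd_one, orderOf_eq_one_iff] at h15
          exact h15
        exact (inv_mul_eq_one.1 h12).symm
      rw [sum_congr rfl h4, sum_const, nsmul_eq_mul, hce]
      ring

end SOL
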